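import Pool.Agent.Lib.MP_eb164e_co.Total

/-!
# The asymptotic signed double Roman domination density of the connected cubic graphs is at least 19/28

The definitions (`IsSDRDF`, `gammaSdR`, `IsCubic`, `ratios`, `gammaBarConn`) are in
`Pool.Agent.Lib.MP_eb164e_co.Defs`.
-/

set_option autoImplicit false

noncomputable section

open Classical Finset

namespace Pool.Agent.Results.MP_eb164e_co.LowerBound

open Pool.Agent.MP_eb164e_co

theorem isSDRDF_three {V : Type} [Fintype V] (G : SimpleGraph V) : IsSDRDF G fun _ => 3 where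
  range _ := Or.inr (Or.inr (Or.inr rfl))
  neg u h := by norm_num at h
  one u h := by norm_num at h
  closed u := by
    refine le_trans ?_ (single_le_sum (f := fun w => if w = u ∨ G.Adj u w then (3 : ℤ) else 0) ?_
      (mem_univ u))
    · simp
    · intro w _
      split_ifs <;> norm_num

theorem bddBelow_weights {V : Type} [Fintype V] (G : SimpleGraph V) :
    BddBelow {w : ℤ | ∃ f : V → ℤ, IsSDRDF G f ∧ w = ∑ v, f v} := by
  refine ⟨-(Fintype.card V : ℤ), ?_⟩
  rintro w ⟨f, hf, rfl⟩
  have h : ∑ _v : V, (-1 : ℤ) ≤ ∑ v, f v := by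
    refine sum_le_sum fun v _ => ?_
    rcases hf.range v with h | h | h | h <;> rw [h] <;> norm_num
  simpa using h

theorem gammaSdR_le {V : Type} [Fintype V] (G : SimpleGraph V) : gammaSdR G ≤ 3 * Fintype.card V := by
  refine csInf_le (bddBelow_weights G) ⟨fun _ => 3, isSDRDF_three G, ?_⟩
  simp [mul_comm]

theorem bddAbove_ratios (N : ℕ) : BddAbove (ratios N) := by
  refine ⟨3, ?_⟩
  rintro x ⟨V, _, G, _, hc, _, rfl⟩
  have : Nonempty V := hc.nonempty
  have h : (0 : ℝ) < Fintype.card V := by exact_mod_cast Fintype.card_pos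
  rw [div_le_iff₀ h]
  exact_mod_cast gammaSdR_le G

theorem le_gammaSdR (k : ℕ) [NeZero k] : (38 * k : ℤ) ≤ gammaSdR (gr k) := by
  refine le_csInf ⟨_, fun _ => 3, isSDRDF_three (gr k), rfl⟩ ?_
  rintro w ⟨f, hf, rfl⟩
  exact weight_ge hf

/-- **Main result**: the asymptotic signed double Roman domination density of the connected cubic graphs
is at least `19/28` (the known bound is `1/2`). -/
theorem result : (19 / 28 : ℝ) ≤ gammaBarConn := by
  refine le_ciInf fun N => ?_
  have : NeZero (N + 1) := ⟨Nat.succ_ne_zero N⟩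
  refine le_trans ?_ (le_csSup (bddAbove_ratios N) ⟨ZMod (N + 1) × Fin 56, inferInstance, gr (N + 1), ?_,
    gr_connected, gr_cubic, rfl⟩)
  · have h := le_gammaSdR (N + 1)
    have hc : Fintype.card (ZMod (N + 1) × Fin 56) = (N + 1) * 56 := by
      rw [Fintype.card_prod, ZMod.card, Fintype.card_fin]
    rw [hc]
    have h2 : (38 * (N + 1 : ℕ) : ℝ) ≤ (gammaSdR (gr (N + 1)) : ℝ) := by exact_mod_cast h
    have h3 : (0 : ℝ) < ((N + 1) * 56 : ℕ) := by positivity
    rw [le_div_iff₀ h3]
    push_cast at h2 ⊢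
    linarith
  · rw [Fintype.card_prod, ZMod.card, Fintype.card_fin]
    omega

end Pool.Agent.Results.MP_eb164e_co.LowerBound
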