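import Pool.Agent.Lib.MP_eb164e_co.UB.NearBip

/-!
# Cubic graphs which are close to bipartite

If a cubic graph becomes bipartite when `F` is deleted from its edges, then its signed double Roman
domination number is at most `7/8` of its order plus `|F| / 2`.

The definitions (`IsSDRDF`, `gammaSdR`, `IsCubic`) are in `Pool.Agent.Lib.MP_eb164e_co.Defs`.
-/

set_option autoImplicit false

noncomputable section

open Classical Finset

namespace Pool.Agent.Results.MP_eb164e_co.NearBipartite

open Pool.Agent.MP_eb164e_co Pool.Agent.MP_eb164e_co.UB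

/-- **Main result**: if the cubic graph `G` becomes bipartite when the edges of `F` are deleted, then
`gammaSdR G ≤ 7/8 |V| + |F|/2`. -/
theorem result : ∀ (V : Type) [Fintype V] (G : SimpleGraph V), IsCubic G → ∀ F : Finset (Sym2 V),
    (G.deleteEdges (F : Set (Sym2 V))).IsBipartite →
      (gammaSdR G : ℝ) ≤ 7 / 8 * Fintype.card V + F.card / 2 := by
  intro V _ G hG F hF
  obtain ⟨f, hf, hw⟩ := exists_light_nb hG hF
  have h : gammaSdR G ≤ ∑ v, f v := by
    refine csInf_le ⟨-(Fintype.card V : ℤ), ?_⟩ ⟨f, hf, rfl⟩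
    rintro w ⟨g, hg, rfl⟩
    have h : ∑ _v : V, (-1 : ℤ) ≤ ∑ v, g v := by
      refine sum_le_sum fun v _ => ?_
      rcases hg.range v with h | h | h | h <;> rw [h] <;> norm_num
    simpa using h
  have h5 : 8 * gammaSdR G ≤ 7 * (Fintype.card V : ℤ) + 4 * F.card := by linarith
  have h' : ((8 * gammaSdR G : ℤ) : ℝ) ≤ ((7 * (Fintype.card V : ℤ) + 4 * F.card : ℤ) : ℝ) :=
    Int.cast_le.2 h5
  push_cast at h'
  linarith

end Pool.Agent.Results.MP_eb164e_co.NearBipartite
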