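import Pool.Agent.Lib.MP_eb164e_co.UB.Side20

/-!
# Every cubic graph has signed double Roman domination number at most `9/10` of its order

The definitions (`IsSDRDF`, `gammaSdR`, `IsCubic`, `ratios`, `gammaBarConn`) are in
`Pool.Agent.Lib.MP_eb164e_co.Defs`.
-/

set_option autoImplicit false

noncomputable section

open Classical Finset

namespace Pool.Agent.Results.MP_eb164e_co.UpperBound

open Pool.Agent.MP_eb164e_co Pool.Agent.MP_eb164e_co.UB

theorem bddBelow_weights {V : Type} [Fintype V] (G : SimpleGraph V) :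
    ∀ f : V → ℤ, IsSDRDF G f → -(Fintype.card V : ℤ) ≤ ∑ v, f v := by
  intro f hf
  have h : ∑ _v : V, (-1 : ℤ) ≤ ∑ v, f v := by
    refine sum_le_sum fun v _ => ?_
    rcases hf.range v with h | h | h | h <;> rw [h] <;> norm_num
  simpa using h

theorem gammaSdR_le {V : Type} [Fintype V] {G : SimpleGraph V} {f : V → ℤ} (hf : IsSDRDF G f) :
    gammaSdR G ≤ ∑ v, f v := by
  refine csInf_le ⟨-(Fintype.card V : ℤ), ?_⟩ ⟨f, hf, rfl⟩
  rintro w ⟨g, hg, rfl⟩
  exact bddBelow_weights G g hg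

theorem le_gammaSdR {V : Type} [Fintype V] {G : SimpleGraph V} (hf : ∃ f : V → ℤ, IsSDRDF G f) :
    -(Fintype.card V : ℤ) ≤ gammaSdR G := by
  obtain ⟨f, hf⟩ := hf
  refine le_csInf ⟨_, f, hf, rfl⟩ ?_
  rintro w ⟨g, hg, rfl⟩
  exact bddBelow_weights G g hg

/-- **Main result**: every cubic graph has signed double Roman domination number at most `9/10` of its
order; hence the asymptotic density of the connected cubic graphs is at most `9/10` (the known bound is
`5/4`). -/
theorem result :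
    (∀ (V : Type) [Fintype V] (G : SimpleGraph V), IsCubic G →
      (gammaSdR G : ℝ) ≤ 9 / 10 * Fintype.card V) ∧ gammaBarConn ≤ 9 / 10 := by
  have h1 : ∀ (V : Type) [Fintype V] (G : SimpleGraph V), IsCubic G →
      (gammaSdR G : ℝ) ≤ 9 / 10 * Fintype.card V := by
    intro V _ G hG
    obtain ⟨f, hf, hw⟩ := exists_light20 hG
    have h := gammaSdR_le hf
    have h5 : 10 * gammaSdR G ≤ 9 * (Fintype.card V : ℤ) := by linarith
    have h' : ((10 * gammaSdR G : ℤ) : ℝ) ≤ ((9 * (Fintype.card V : ℤ) : ℤ) : ℝ) := Int.cast_le.2 h5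
    push_cast at h'
    linarith
  refine ⟨h1, ?_⟩
  have h2 : ∀ N : ℕ, ∀ x ∈ ratios N, x ≤ 9 / 10 ∧ -1 ≤ x := by
    rintro N x ⟨V, _, G, _, hc, hG, rfl⟩
    have : Nonempty V := hc.nonempty
    have h : (0 : ℝ) < Fintype.card V := by exact_mod_cast Fintype.card_pos
    constructor
    · rw [div_le_iff₀ h]
      exact h1 V G hG
    · rw [le_div_iff₀ h]
      obtain ⟨f, hf, -⟩ := exists_light20 hG
      have h3 := le_gammaSdR ⟨f, hf⟩
      have h4 : ((-(Fintype.card V : ℤ) : ℤ) : ℝ) ≤ (gammaSdR G : ℝ) := by exact_mod_cast h3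
      push_cast at h4
      linarith
  have h3 : BddBelow (Set.range fun N : ℕ => sSup (ratios N)) := by
    refine ⟨-1, ?_⟩
    rintro y ⟨N, rfl⟩
    rcases (ratios N).eq_empty_or_nonempty with he | ⟨x, hx⟩
    · simp [he]
    · exact (h2 N x hx).2.trans (le_csSup ⟨9 / 10, fun y hy => (h2 N y hy).1⟩ hx)
  refine (ciInf_le h3 0).trans ?_
  exact Real.sSup_le (fun x hx => (h2 0 x hx).1) (by norm_num)

end Pool.Agent.Results.MP_eb164e_co.UpperBound
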